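import Pool.Agent.Lib.MP_4d246d_lc.Lar.Machine
import Pool.Agent.Lib.MP_4d246d_lc.QP.Count

/-!
# Correctness, number of pivots and number of steps of the doubling rule
-/

namespace Pool.Agent.Simplex.Lar

open Pool.Agent.Simplex.QP

variable {Pt Vl : Type} {o : Orc Pt Vl} {vle : Vl → Vl → Bool}
variable {E : Type*} [AddCommGroup E] [Module ℝ E] {S : Sys E} {val : Pt → E}

/-- `π'` extends the path `π` by `m` improving edges of the face `J` (latest vertex first) -/
inductive Ext (S : Sys E) (M : ℕ) (val : Pt → E) (J : List ℕ) : ℕ → List Pt → List Pt → Prop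
  | refl (π : List Pt) : Ext S M val J 0 π π
  | step {m : ℕ} {π : List Pt} {x : Pt} {ρ : List Pt} {y : Pt} : Ext S M val J m π (x :: ρ) →
      Mv S M J (val x) (val y) → Ext S M val J (m + 1) π (y :: x :: ρ)

theorem Ext.trans {M : ℕ} {J : List ℕ} {a b : ℕ} {π π' π'' : List Pt}
    (h : Ext S M val J a π π') (h' : Ext S M val J b π' π'') : Ext S M val J (a + b) π π'' := by
  induction h' with
  | refl π' => simpa using h
  | step h1 h2 ih => exact Ext.step (ih h) h2

theorem Ext.mono {M : ℕ} {J J' : List ℕ} {a : ℕ} {π π' : List Pt}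
    (h : Ext S M val J' a π π') (hJ : ∀ j ∈ J, j ∈ J') : Ext S M val J a π π' := by
  induction h with
  | refl π => exact Ext.refl π
  | step h1 h2 ih => exact Ext.step ih (h2.mono hJ)

/-- valid paths on the face `J` -/
def Vld (S : Sys E) (M : ℕ) (val : Pt → E) (J : List ℕ) (π : List Pt) : Prop :=
  ∃ x ρ, π = x :: ρ ∧ val x ∈ S.Q J (List.range M) ∧ S.Vx (fun i => i < M) (val x)

theorem Ext.valid {M : ℕ} {J : List ℕ} {a : ℕ} {π π' : List Pt}
    (h : Ext S M val J a π π') (hv : Vld S M val J π) :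
    Vld S M val J π' ∧ ∀ x ρ x' ρ', π = x :: ρ → π' = x' :: ρ' → S.c (val x) ≤ S.c (val x') := by
  induction h with
  | refl π =>
    refine ⟨hv, ?_⟩
    rintro x ρ x' ρ' h1 h2
    rw [h1] at h2
    obtain ⟨rfl, -⟩ := List.cons.inj h2
    exact le_rfl
  | @step m π x ρ y h1 h2 ih =>
    obtain ⟨ih1, ih2⟩ := ih hv
    obtain ⟨K, z, t, k1, k2, k3, k4, k5, k6, k7, k8, k9, k10⟩ := h2
    refine ⟨⟨y, x :: ρ, rfl, ⟨fun j hj => k5.1 j (k1 j hj), k5.2⟩, k10⟩, ?_⟩
    rintro x0 ρ0 x' ρ' e1 e2
    obtain ⟨rfl, -⟩ := List.cons.inj e2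
    have h3 := ih2 x0 ρ0 x ρ e1 rfl
    have h4 : S.c (val x) < S.c (val y) := by
      rw [k8, map_add, map_smul, smul_eq_mul]
      have := mul_pos k7 k6
      linarith
    exact h3.trans h4.le

/-- the constraints proper for `J` met by `D` with top above `r` -/
noncomputable def MetS (S : Sys E) (M : ℕ) (val : Pt → E) (J : List ℕ) (r : ℝ)
    (D : List (List Pt)) : Finset ℕ :=
  open Classical in (Finset.range M).filter (fun i => ¬ S.Dep J i ∧
    (∃ π ∈ D, ∃ x ρ, π = x :: ρ ∧ S.sl i (val x) = 0) ∧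
    ∃ y ∈ S.Q (i :: J) (List.range M), r < S.c y)

theorem mem_MetS {M : ℕ} {J : List ℕ} {r : ℝ} {D : List (List Pt)} {i : ℕ} :
    i ∈ MetS S M val J r D ↔ i < M ∧ ¬ S.Dep J i ∧
      (∃ π ∈ D, ∃ x ρ, π = x :: ρ ∧ S.sl i (val x) = 0) ∧
      ∃ y ∈ S.Q (i :: J) (List.range M), r < S.c y := by
  classical
  unfold MetS
  rw [Finset.mem_filter, Finset.mem_range]

/-- Admissible bounds for the number of pivots (`F`) and for the number of steps (`W`), as
functions of the dimension of the face and of the number of constraints to be met. -/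
structure Cst (F W : ℕ → ℕ → ℕ) : Prop where
  one : ∀ k q, 1 ≤ k → 2 ≤ q → 1 ≤ F k q
  gain : ∀ k j r, 1 ≤ k → 2 ^ j < r →
    (∑ i ∈ Finset.range (j + 1), F k (2 ^ (i + 1))) + F (k + 1) (r - 2 ^ j) ≤ F (k + 1) r
  wone : ∀ k q, 1 ≤ q → 2 ≤ W k q
  wgain : ∀ k j r, 1 ≤ k → 2 ^ j < r →
    (1 + ∑ i ∈ Finset.range (j + 1), (W k (2 ^ (i + 1)) + 2)) + W (k + 1) (r - 2 ^ j) ≤
      W (k + 1) r

/-- the specification of the result of a frame -/
def OutOK (F : ℕ → ℕ → ℕ) (S : Sys E) (M : ℕ) (val : Pt → E) (k : ℕ) (J : List ℕ) (q : ℕ)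
    (π : List Pt) (out : Out Pt) : Prop :=
  match out with
  | .inl (π', false) => (∃ m, Ext S M val J m π π' ∧ m ≤ F k q) ∧
      ∃ x ρ, π' = x :: ρ ∧ ∀ y ∈ S.Q J (List.range M), S.c y ≤ S.c (val x)
  | .inl (π', true) => (∃ m, Ext S M val J m π π' ∧ m ≤ F k q) ∧
      ∃ x ρ, π' = x :: ρ ∧ Ry S M J (val x)
  | .inr D => (∀ π' ∈ D, ∃ m, Ext S M val J m π π' ∧ m ≤ F k q) ∧
      ∃ x ρ, π = x :: ρ ∧ q ≤ (MetS S M val J (S.c (val x)) D).card

/-- order of results of linear programs -/
theorem resLe_total (hv : ∀ a b : Pt, vle (o.obj a) (o.obj b) = true ∨ vle (o.obj b) (o.obj a) = true)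
    (a b : LRes Pt) : resLe o vle a b = true ∨ resLe o vle b a = true := by
  cases a <;> cases b <;> simp [resLe, hv]

/-- `a` is at most `b` -/
def RLe (S : Sys E) (val : Pt → E) (a b : LRes Pt) : Prop :=
  match a, b with
  | .infeas, _ => True
  | _, .infeas => False
  | _, .unb => True
  | .unb, .opt _ => False
  | .opt y, .opt z => S.c (val y) ≤ S.c (val z)

theorem resLe_iff (ho : Spec o vle S val) (a b : LRes Pt) :
    resLe o vle a b = true ↔ RLe S val a b := by
  cases a <;> cases b <;> simp [resLe, RLe, ho.vle]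

theorem RLe.trans {a b c : LRes Pt} (h1 : RLe S val a b) (h2 : RLe S val b c) : RLe S val a c := by
  cases a <;> cases b <;> cases c <;> simp_all [RLe]
  exact h1.trans h2

theorem RLe.total (a b : LRes Pt) : RLe S val a b ∨ RLe S val b a := by
  cases a <;> cases b <;> simp [RLe, le_total]

theorem RLe.refl (a : LRes Pt) : RLe S val a a := by
  cases a <;> simp [RLe]

/-- The pick is the highest candidate. -/
theorem pick_spec (ho : Spec o vle S val) (J : List ℕ) (l : List (ℕ × List Pt))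
    (hl : l ≠ []) : ∃ c ∈ l, l.foldl (pickStep o vle J) none = some c ∧
      ∀ b ∈ l, RLe S val (topOf o J b.1) (topOf o J c.1) := by
  have key : ∀ (l : List (ℕ × List Pt)) (c0 : ℕ × List Pt),
      ∃ c, (c = c0 ∨ c ∈ l) ∧ l.foldl (pickStep o vle J) (some c0) = some c ∧
      RLe S val (topOf o J c0.1) (topOf o J c.1) ∧
      ∀ b ∈ l, RLe S val (topOf o J b.1) (topOf o J c.1) := by
    intro l
    induction l with
    | nil => intro c0; exact ⟨c0, Or.inl rfl, rfl, RLe.refl _, fun b hb => absurd hb List.not_mem_nil⟩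
    | cons a l ih =>
      intro c0
      rw [List.foldl_cons]
      by_cases h : resLe o vle (topOf o J c0.1) (topOf o J a.1) = true
      · have h1 : pickStep o vle J (some c0) a = some a := by simp [pickStep, h]
        rw [h1]
        obtain ⟨c, h2, h3, h4, h5⟩ := ih a
        refine ⟨c, Or.inr ?_, h3, ((resLe_iff ho _ _).1 h).trans h4, ?_⟩
        · rcases h2 with rfl | h2
          · exact List.mem_cons_self
          · exact List.mem_cons_of_mem _ h2
        · intro b hb
          rcases List.mem_cons.1 hb with rfl | hb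
          · exact h4
          · exact h5 b hb
      · have h1 : pickStep o vle J (some c0) a = some c0 := by simp [pickStep, h]
        rw [h1]
        obtain ⟨c, h2, h3, h4, h5⟩ := ih c0
        refine ⟨c, ?_, h3, h4, ?_⟩
        · rcases h2 with rfl | h2
          · exact Or.inl rfl
          · exact Or.inr (List.mem_cons_of_mem _ h2)
        · intro b hb
          rcases List.mem_cons.1 hb with rfl | hb
          · rcases RLe.total (S := S) (val := val) (topOf o J c0.1) (topOf o J b.1) with h6 | h6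
            · exact absurd ((resLe_iff ho _ _).2 h6) h
            · exact h6.trans h4
          · exact h5 b hb
  cases l with
  | nil => exact absurd rfl hl
  | cons a l =>
    obtain ⟨c, h1, h2, h3, h4⟩ := key l a
    refine ⟨c, ?_, ?_, ?_⟩
    · rcases h1 with rfl | h1
      · exact List.mem_cons_self
      · exact List.mem_cons_of_mem _ h1
    · rw [List.foldl_cons]
      exact h2
    · intro b hb
      rcases List.mem_cons.1 hb with rfl | hb
      · exact h3
      · exact h4 b hb

theorem mem_cands (ho : Spec o vle S val) {J : List ℕ} (hJ : ∀ j ∈ J, j < o.M)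
    {D : List (List Pt)} {i : ℕ} {π : List Pt} :
    (i, π) ∈ cands o J D ↔ π ∈ D ∧ i < o.M ∧ ¬ S.Dep J i ∧
      ∃ x ρ, π = x :: ρ ∧ S.sl i (val x) = 0 := by
  unfold cands
  simp only [List.mem_flatMap, List.mem_map, List.mem_filter, List.mem_range, Bool.and_eq_true,
    Bool.not_eq_true', Prod.mk.injEq]
  constructor
  · rintro ⟨π', h1, i', ⟨h2, h3, h4⟩, rfl, rfl⟩
    refine ⟨h1, h2, fun hd => ?_, ?_⟩
    · rw [(ho.dep J i' hJ h2).2 hd] at h4; simp at h4
    · cases π' with
      | nil => simp [ttHead] at h3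
      | cons x ρ => exact ⟨x, ρ, rfl, (ho.tt x i' h2).1 h3⟩
  · rintro ⟨h1, h2, h3, x, ρ, rfl, h4⟩
    refine ⟨_, h1, i, ⟨h2, ?_, ?_⟩, rfl, rfl⟩
    · exact (ho.tt x i h2).2 h4
    · by_contra hc
      rw [Bool.not_eq_false] at hc
      exact h3 ((ho.dep J i hJ h2).1 hc)

/-- Meaning of the comparison of tops. -/
theorem top_bound (ho : Spec o vle S val) {J : List ℕ} (hJ : ∀ j ∈ J, j < o.M) {i i' : ℕ}
    (hi : i < o.M) (hi' : i' < o.M) (h : RLe S val (topOf o J i) (topOf o J i')) {r : ℝ}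
    (hr : ∀ y ∈ S.Q (i' :: J) (List.range o.M), S.c y ≤ r) :
    ∀ y ∈ S.Q (i :: J) (List.range o.M), S.c y ≤ r := by
  have hR : ∀ i ∈ List.range o.M, i < o.M := fun i hi => List.mem_range.1 hi
  have hJi : ∀ j ∈ i :: J, j < o.M := fun j hj => by
    rcases List.mem_cons.1 hj with rfl | hj
    · exact hi
    · exact hJ j hj
  have hJi' : ∀ j ∈ i' :: J, j < o.M := fun j hj => by
    rcases List.mem_cons.1 hj with rfl | hj
    · exact hi'
    · exact hJ j hj
  intro y hy
  unfold topOf at h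
  cases h1 : o.lp (i :: J) (List.range o.M) with
  | infeas =>
    have := ho.infeas _ _ hJi hR h1
    rw [this] at hy
    exact absurd hy (Set.notMem_empty _)
  | unb =>
    rw [h1] at h
    cases h2 : o.lp (i' :: J) (List.range o.M) with
    | infeas => rw [h2] at h; exact absurd h (by simp [RLe])
    | opt z => rw [h2] at h; exact absurd h (by simp [RLe])
    | unb =>
      obtain ⟨w, hw, hlt⟩ := ho.unb _ _ hJi' hR h2 r
      exact absurd (hr w hw) (not_le.2 hlt)
  | opt z =>
    obtain ⟨h3, h4⟩ := ho.opt _ _ _ hJi hR h1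
    refine (h4 y hy).trans ?_
    rw [h1] at h
    cases h2 : o.lp (i' :: J) (List.range o.M) with
    | infeas => rw [h2] at h; exact absurd h (by simp [RLe])
    | unb =>
      obtain ⟨w, hw, hlt⟩ := ho.unb _ _ hJi' hR h2 r
      exact absurd (hr w hw) (not_le.2 hlt)
    | opt z' =>
      rw [h2] at h
      obtain ⟨h5, h6⟩ := ho.opt _ _ _ hJi' hR h2
      have h7 : S.c (val z) ≤ S.c (val z') := h
      exact h7.trans (hr _ h5)

end Pool.Agent.Simplex.Lar
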