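import Mathlib
import Pool.Agent.Lib.MP_4d246d_lc.Lar.Run

/-!
# The bounds for the number of pivots of the doubling rule
-/

namespace Pool.Agent.Simplex.Lar

/-- sum of `c j` over the binary digits of `n` -/
def Phi (c : ℕ → ℕ) (n : ℕ) : ℕ :=
  if h : n = 0 then 0 else (n % 2) * c 0 + Phi (fun j => c (j + 1)) (n / 2)
termination_by n
decreasing_by exact Nat.div_lt_self (Nat.pos_of_ne_zero h) one_lt_two

theorem Phi_zero (c : ℕ → ℕ) : Phi c 0 = 0 := by rw [Phi, dif_pos rfl]

theorem Phi_even (c : ℕ → ℕ) (n : ℕ) : Phi c (2 * n) = Phi (fun j => c (j + 1)) n := by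
  rcases Nat.eq_zero_or_pos n with rfl | hn
  · rw [Nat.mul_zero, Phi_zero, Phi_zero]
  · rw [Phi, dif_neg (by omega)]
    have h1 : 2 * n % 2 = 0 := by omega
    have h2 : 2 * n / 2 = n := by omega
    rw [h1, h2, Nat.zero_mul, Nat.zero_add]

theorem Phi_odd (c : ℕ → ℕ) (n : ℕ) :
    Phi c (2 * n + 1) = c 0 + Phi (fun j => c (j + 1)) n := by
  rw [Phi, dif_neg (by omega)]
  have h1 : (2 * n + 1) % 2 = 1 := by omega
  have h2 : (2 * n + 1) / 2 = n := by omega
  rw [h1, h2, Nat.one_mul]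

/-- superadditivity -/
theorem Phi_gain : ∀ (n : ℕ) (c : ℕ → ℕ), (∀ j, 2 * c j ≤ c (j + 1)) → ∀ j, 2 ^ j ≤ n →
    c j + Phi c (n - 2 ^ j) ≤ Phi c n := by
  intro n
  induction n using Nat.strong_induction_on with
  | _ n ih =>
    intro c hc j hj
    have hc' : ∀ j, 2 * (fun j => c (j + 1)) j ≤ (fun j => c (j + 1)) (j + 1) := fun j => hc (j + 1)
    rcases Nat.even_or_odd' n with ⟨a, rfl | rfl⟩
    · cases j with
      | zero =>
        rw [pow_zero] at hj ⊢
        obtain ⟨b, rfl⟩ : ∃ b, a = b + 1 := ⟨a - 1, by omega⟩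
        have h1 : 2 * (b + 1) - 1 = 2 * b + 1 := by omega
        rw [h1, Phi_odd, Phi_even]
        have h2 := ih (b + 1) (by omega) (fun j => c (j + 1)) hc' 0 (by simp)
        rw [pow_zero, Nat.add_sub_cancel] at h2
        have h3 := hc 0
        omega
      | succ j =>
        have h0 : 2 ^ (j + 1) = 2 * 2 ^ j := by rw [pow_succ]; ring
        have h1 : 2 * a - 2 ^ (j + 1) = 2 * (a - 2 ^ j) := by rw [h0]; omega
        rw [h1, Phi_even, Phi_even]
        have ha : 1 ≤ 2 ^ j := Nat.one_le_two_pow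
        exact ih a (by omega) (fun j => c (j + 1)) hc' j (by omega)
    · cases j with
      | zero =>
        rw [pow_zero, Nat.add_sub_cancel, Phi_odd, Phi_even]
      | succ j =>
        have h0 : 2 ^ (j + 1) = 2 * 2 ^ j := by rw [pow_succ]; ring
        have ha : 1 ≤ 2 ^ j := Nat.one_le_two_pow
        have h1 : 2 * a + 1 - 2 ^ (j + 1) = 2 * (a - 2 ^ j) + 1 := by rw [h0]; omega
        rw [h1, Phi_odd, Phi_odd]
        have := ih a (by omega) (fun j => c (j + 1)) hc' j (by omega)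
        omega

theorem Phi_pow : ∀ (s : ℕ) (c : ℕ → ℕ), Phi c (2 ^ s - 1) = ∑ j ∈ Finset.range s, c j := by
  intro s
  induction s with
  | zero => intro c; simp [Phi_zero]
  | succ s ih =>
    intro c
    have h1 : 2 ^ (s + 1) - 1 = 2 * (2 ^ s - 1) + 1 := by
      have : 1 ≤ 2 ^ s := Nat.one_le_two_pow
      rw [pow_succ]; omega
    rw [h1, Phi_odd, ih, Finset.sum_range_succ']
    ring

theorem Phi_linear : ∀ (n : ℕ) (c : ℕ → ℕ) (C : ℕ), (∀ j, c j ≤ C * 2 ^ j) → Phi c n ≤ C * n := by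
  intro n
  induction n using Nat.strong_induction_on with
  | _ n ih =>
    intro c C hc
    rcases Nat.eq_zero_or_pos n with rfl | hn
    · rw [Phi_zero]; exact Nat.zero_le _
    have hc' : ∀ j, (fun j => c (j + 1)) j ≤ (2 * C) * 2 ^ j := fun j => by
      have := hc (j + 1)
      rw [pow_succ] at this
      calc c (j + 1) ≤ C * (2 ^ j * 2) := this
        _ = 2 * C * 2 ^ j := by ring
    have h0 := hc 0
    rw [pow_zero, Nat.mul_one] at h0
    rcases Nat.even_or_odd' n with ⟨a, rfl | rfl⟩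
    · rw [Phi_even]
      calc _ ≤ 2 * C * a := ih a (by omega) _ _ hc'
        _ = C * (2 * a) := by ring
    · rw [Phi_odd]
      calc _ ≤ C + 2 * C * a := Nat.add_le_add h0 (ih a (by omega) _ _ hc')
        _ = C * (2 * a + 1) := by ring

/-- the number of pivots on a face of dimension `k` until `q` constraints are met -/
def Fc : ℕ → ℕ → ℕ
  | 0, _ => 0
  | 1, _ => 1
  | 2, q => q - 1
  | (k + 3), q => Phi (fun j => ∑ i ∈ Finset.range (j + 1), Fc (k + 2) (2 ^ (i + 1))) (q - 1)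

/-- doubling sequences -/
theorem sum_le_of_doubling {x : ℕ → ℕ} (hx : ∀ i, 2 * x i ≤ x (i + 1)) (j : ℕ) :
    ∑ i ∈ Finset.range (j + 1), x (i + 1) ≤ x (j + 2) := by
  induction j with
  | zero =>
    have := hx 1
    simp only [Finset.sum_range_one, Nat.zero_add]
    simp only [Nat.reduceAdd] at this
    omega
  | succ j ih =>
    rw [Finset.sum_range_succ]
    have := hx (j + 2)
    have h2 : j + 1 + 2 = j + 2 + 1 := by ring
    rw [h2]
    have h3 : j + 1 + 1 = j + 2 := by ring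
    rw [h3]
    omega

theorem sum_doubling {x : ℕ → ℕ} (hx : ∀ i, 2 * x i ≤ x (i + 1)) (j : ℕ) :
    2 * (∑ i ∈ Finset.range (j + 1), x (i + 1)) ≤ ∑ i ∈ Finset.range (j + 1 + 1), x (i + 1) := by
  rw [Finset.sum_range_succ _ (j + 1)]
  have := sum_le_of_doubling hx j
  have h3 : j + 1 + 1 = j + 2 := by ring
  rw [h3]
  omega

theorem Fc_doubling (k : ℕ) : ∀ i, 2 * Fc (k + 2) (2 ^ i) ≤ Fc (k + 2) (2 ^ (i + 1)) := by
  induction k with
  | zero =>
    intro i
    show 2 * (2 ^ i - 1) ≤ 2 ^ (i + 1) - 1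
    rw [pow_succ]
    omega
  | succ k ih =>
    intro i
    show 2 * Phi _ (2 ^ i - 1) ≤ Phi _ (2 ^ (i + 1) - 1)
    rw [Phi_pow, Phi_pow, Finset.sum_range_succ _ i]
    have key : ∀ i, ∑ j ∈ Finset.range i,
        (∑ i ∈ Finset.range (j + 1), Fc (k + 2) (2 ^ (i + 1))) ≤
        ∑ i ∈ Finset.range (i + 1), Fc (k + 2) (2 ^ (i + 1)) := by
      intro i
      induction i with
      | zero => simp
      | succ i ih2 =>
        rw [Finset.sum_range_succ]
        have := sum_doubling (x := fun i => Fc (k + 2) (2 ^ i)) ih i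
        omega
    have := key i
    omega

theorem Fc_cdoubling (k j : ℕ) :
    2 * (∑ i ∈ Finset.range (j + 1), Fc (k + 2) (2 ^ (i + 1))) ≤
      ∑ i ∈ Finset.range (j + 1 + 1), Fc (k + 2) (2 ^ (i + 1)) :=
  sum_doubling (x := fun i => Fc (k + 2) (2 ^ i)) (Fc_doubling k) j

theorem succ_le_two_pow (j : ℕ) : j + 1 ≤ 2 ^ j := Nat.lt_two_pow_self

theorem Fc_gain : ∀ k j r, 1 ≤ k → 2 ^ j < r →
    (∑ i ∈ Finset.range (j + 1), Fc k (2 ^ (i + 1))) + Fc (k + 1) (r - 2 ^ j) ≤ Fc (k + 1) r := by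
  intro k j r hk hr
  match k, hk with
  | 1, _ =>
    show (∑ i ∈ Finset.range (j + 1), 1) + (r - 2 ^ j - 1) ≤ r - 1
    rw [Finset.sum_const, Finset.card_range, smul_eq_mul, Nat.mul_one]
    have := succ_le_two_pow j
    omega
  | k + 2, _ =>
    have := Phi_gain (r - 1) (fun j => ∑ i ∈ Finset.range (j + 1), Fc (k + 2) (2 ^ (i + 1)))
      (Fc_cdoubling k) j (by omega)
    show (∑ i ∈ Finset.range (j + 1), Fc (k + 2) (2 ^ (i + 1))) + Phi _ (r - 2 ^ j - 1) ≤
      Phi _ (r - 1)
    have h : r - 2 ^ j - 1 = r - 1 - 2 ^ j := by omega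
    rw [h]
    exact this

theorem Fc_one : ∀ k q, 1 ≤ k → 2 ≤ q → 1 ≤ Fc k q := by
  intro k
  induction k with
  | zero => intro q h; omega
  | succ k ih =>
    intro q _ hq
    rcases Nat.eq_zero_or_pos k with rfl | hk
    · exact le_refl 1
    · have h1 := Fc_gain k 0 q hk (by rw [pow_zero]; omega)
      have h2 := ih 2 hk le_rfl
      rw [Finset.sum_range_one] at h1
      have h3 : (2 : ℕ) ^ (0 + 1) = 2 := by norm_num
      rw [h3] at h1
      omega

theorem Fc_mono {k q q' : ℕ} (h : q ≤ q') : Fc k q ≤ Fc k q' := by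
  induction q', h using Nat.le_induction with
  | base => exact le_rfl
  | succ r hr ih =>
    refine ih.trans ?_
    match k with
    | 0 => exact le_rfl
    | 1 => exact le_rfl
    | k + 2 =>
      rcases Nat.eq_zero_or_pos r with rfl | hr0
      · match k with
        | 0 => exact le_rfl
        | k + 1 =>
          show Phi _ (0 - 1) ≤ Phi _ (0 + 1 - 1)
          exact le_rfl
      · have h1 : (∑ i ∈ Finset.range (0 + 1), Fc (k + 1) (2 ^ (i + 1))) +
            Fc (k + 2) (r + 1 - 2 ^ 0) ≤ Fc (k + 2) (r + 1) :=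
          Fc_gain (k + 1) 0 (r + 1) (by omega) (by rw [pow_zero]; omega)
        rw [pow_zero, Nat.add_sub_cancel] at h1
        omega

/-- The linear bound. -/
theorem Fc_linear (k : ℕ) : ∀ q, Fc (k + 2) q ≤ 4 ^ k * (q - 1) := by
  induction k with
  | zero => intro q; show q - 1 ≤ 4 ^ 0 * (q - 1); simp
  | succ k ih =>
    intro q
    refine Phi_linear _ _ _ fun j => ?_
    have h1 : ∑ i ∈ Finset.range (j + 1), Fc (k + 2) (2 ^ (i + 1)) ≤
        ∑ i ∈ Finset.range (j + 1), 4 ^ k * 2 ^ (i + 1) :=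
      Finset.sum_le_sum fun i _ => (ih _).trans (Nat.mul_le_mul_left _ (Nat.sub_le _ _))
    refine h1.trans ?_
    rw [← Finset.mul_sum]
    have h2 : ∀ j : ℕ, ∑ i ∈ Finset.range (j + 1), 2 ^ (i + 1) ≤ 4 * 2 ^ j := by
      intro j
      induction j with
      | zero => simp
      | succ j ih2 =>
        rw [Finset.sum_range_succ, pow_succ 2 (j + 1), pow_succ 2 j]
        omega
    calc 4 ^ k * ∑ i ∈ Finset.range (j + 1), 2 ^ (i + 1) ≤ 4 ^ k * (4 * 2 ^ j) :=
          Nat.mul_le_mul_left _ (h2 j)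
      _ = 4 ^ (k + 1) * 2 ^ j := by rw [pow_succ]; ring

/-- partial sums of binomial coefficients -/
def Hb (n s : ℕ) : ℕ := ∑ j ∈ Finset.range s, (n + s).choose j

theorem Hb_rec (n s : ℕ) : Hb (n + 1) (s + 1) = Hb (n + 1) s + Hb n (s + 1) := by
  have e : n + 1 + (s + 1) = (n + s + 1) + 1 := by ring
  have e1 : n + 1 + s = n + s + 1 := by ring
  have e2 : n + (s + 1) = n + s + 1 := by ring
  unfold Hb
  rw [e, e1, e2]
  rw [Finset.sum_range_succ' (fun j => (n + s + 1 + 1).choose j),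
    Finset.sum_range_succ' (fun j => (n + s + 1).choose j)]
  have h : ∀ j, (n + s + 1 + 1).choose (j + 1) = (n + s + 1).choose j +
      (n + s + 1).choose (j + 1) := fun j => Nat.choose_succ_succ _ _
  simp only [h, Finset.sum_add_distrib, Nat.choose_zero_right]
  ring

theorem Hb_zero (n : ℕ) : Hb n 0 = 0 := rfl

theorem sum_Hb (n s : ℕ) : ∑ i ∈ Finset.range s, Hb n (i + 1) = Hb (n + 1) s := by
  induction s with
  | zero => rfl
  | succ s ih => rw [Finset.sum_range_succ, ih, Hb_rec]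

/-- The exact values at powers of two. -/
theorem Fc_pow (k : ℕ) : ∀ s, Fc (k + 2) (2 ^ s) = Hb (2 * k) s := by
  induction k with
  | zero =>
    intro s
    show 2 ^ s - 1 = ∑ j ∈ Finset.range s, (0 + s).choose j
    rw [Nat.zero_add]
    have := Nat.sum_range_choose s
    rw [Finset.sum_range_succ, Nat.choose_self] at this
    omega
  | succ k ih =>
    intro s
    show Phi _ (2 ^ s - 1) = _
    rw [Phi_pow]
    have h1 : ∀ j, ∑ i ∈ Finset.range (j + 1), Fc (k + 2) (2 ^ (i + 1)) = Hb (2 * k + 1) (j + 1) := by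
      intro j
      rw [← sum_Hb]
      exact Finset.sum_congr rfl fun i _ => ih (i + 1)
    simp only [h1]
    rw [sum_Hb]
    congr 1

/-- crude bounds for the number of steps -/
def wc : ℕ → ℕ
  | 0 => 2
  | k + 1 => 4 * wc k + 4

theorem two_le_wc (k : ℕ) : 2 ≤ wc k := by
  cases k with
  | zero => exact le_rfl
  | succ k => simp only [wc]; omega

theorem cst_Fc : Cst Fc (fun k q => wc k * q) := by
  refine ⟨Fc_one, Fc_gain, fun k q hq => ?_, fun k j r _ hr => ?_⟩
  · calc 2 ≤ wc k * 1 := by rw [Nat.mul_one]; exact two_le_wc k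
      _ ≤ wc k * q := Nat.mul_le_mul_left _ hq
  · have h1 : ∀ j : ℕ, 1 + ∑ i ∈ Finset.range (j + 1), (wc k * 2 ^ (i + 1) + 2) ≤
        wc (k + 1) * 2 ^ j := by
      intro j
      have h2 := two_le_wc k
      induction j with
      | zero =>
        simp only [Finset.sum_range_one, Nat.zero_add, pow_one, pow_zero, Nat.mul_one, wc]
        omega
      | succ j ih =>
        rw [Finset.sum_range_succ]
        have h3 : wc k * 2 ^ (j + 1 + 1) + 2 ≤ wc (k + 1) * 2 ^ j := by
          simp only [wc]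
          have h4 : 1 ≤ 2 ^ j := Nat.one_le_two_pow
          rw [pow_succ, pow_succ]
          nlinarith
        have h5 : wc (k + 1) * 2 ^ (j + 1) = wc (k + 1) * 2 ^ j + wc (k + 1) * 2 ^ j := by
          rw [pow_succ]; ring
        omega
    have h2 := h1 j
    have h3 : wc (k + 1) * r = wc (k + 1) * 2 ^ j + wc (k + 1) * (r - 2 ^ j) := by
      rw [← Nat.mul_add]; congr 1; omega
    omega

end Pool.Agent.Simplex.Lar
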