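import Pool.Agent.Lib.MP_4d246d_lc.QP.Machine

/-!
# The doubling rule: the pivot on a face which is a line
-/

namespace Pool.Agent.Simplex.Lar

open Pool.Agent.Simplex.QP

variable {Pt Vl : Type} (o : Orc Pt Vl) (vle : Vl → Vl → Bool)

/-- is there a better point than `x` on the face `J`? -/
def better (J : List ℕ) (x : Pt) : Bool :=
  match o.lp J (List.range o.M) with
  | .infeas => false
  | .unb => true
  | .opt y => !vle (o.obj y) (o.obj x)

section

variable {o vle} {E : Type*} [AddCommGroup E] [Module ℝ E] {S : Sys E} {val : Pt → E}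

/-- improving edge inside the face `J` -/
def Mv (S : Sys E) (M : ℕ) (J : List ℕ) (x y : E) : Prop :=
  ∃ (K : List ℕ) (z : E) (t : ℝ), (∀ j ∈ J, j ∈ K) ∧ (∀ j ∈ K, j < M) ∧ S.One K z ∧
    x ∈ S.Q K (List.range M) ∧ y ∈ S.Q K (List.range M) ∧ 0 < S.c z ∧ 0 < t ∧ y = x + t • z ∧
    S.Vx (fun i => i < M) x ∧ S.Vx (fun i => i < M) y

/-- improving unbounded edge inside the face `J` -/
def Ry (S : Sys E) (M : ℕ) (J : List ℕ) (x : E) : Prop :=
  ∃ (K : List ℕ) (z : E), (∀ j ∈ J, j ∈ K) ∧ (∀ j ∈ K, j < M) ∧ S.One K z ∧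
    x ∈ S.Q K (List.range M) ∧ 0 < S.c z ∧ (∀ i < M, 0 ≤ S.ln i z) ∧ S.Vx (fun i => i < M) x

theorem Mv.mono {M : ℕ} {J J' : List ℕ} {x y : E} (h : Mv S M J' x y) (hJ : ∀ j ∈ J, j ∈ J') :
    Mv S M J x y := by
  obtain ⟨K, z, t, h1, h2⟩ := h
  exact ⟨K, z, t, fun j hj => h1 j (hJ j hj), h2⟩

theorem Ry.mono {M : ℕ} {J J' : List ℕ} {x : E} (h : Ry S M J' x) (hJ : ∀ j ∈ J, j ∈ J') :
    Ry S M J x := by
  obtain ⟨K, z, h1, h2⟩ := h
  exact ⟨K, z, fun j hj => h1 j (hJ j hj), h2⟩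

theorem Mv.lt {M : ℕ} {J : List ℕ} {x y : E} (h : Mv S M J x y) : S.c x < S.c y := by
  obtain ⟨K, z, t, _, _, _, _, _, hc, ht, rfl, _, _⟩ := h
  rw [map_add, map_smul, smul_eq_mul]
  have := mul_pos ht hc
  linarith

theorem better_iff (ho : Spec o vle S val) {J : List ℕ} (hJ : ∀ j ∈ J, j < o.M) (x : Pt) :
    better o vle J x = true ↔ ∃ y ∈ S.Q J (List.range o.M), S.c (val x) < S.c y := by
  have hR : ∀ i ∈ List.range o.M, i < o.M := fun i hi => List.mem_range.1 hi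
  unfold better
  cases h : o.lp J (List.range o.M) with
  | infeas =>
    have := ho.infeas _ _ hJ hR h
    simp [this]
  | unb =>
    have := ho.unb _ _ hJ hR h (S.c (val x))
    simpa using this
  | opt y =>
    obtain ⟨h1, h2⟩ := ho.opt _ _ _ hJ hR h
    constructor
    · intro hb
      refine ⟨_, h1, ?_⟩
      by_contra hle
      push Not at hle
      have := (ho.vle y x).2 hle
      simp [this] at hb
    · rintro ⟨w, hw, hlt⟩
      have h3 : ¬ S.c (val y) ≤ S.c (val x) := not_le.2 (lt_of_lt_of_le hlt (h2 w hw))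
      have h4 : ¬ (vle (o.obj y) (o.obj x) = true) := fun hv => h3 ((ho.vle y x).1 hv)
      simpa using h4

/-- If no constraint which is proper for the face and tight at the vertex `x` has a better point,
then the face is a line, and the line improves. -/
theorem line_dir {M : ℕ} {K : List ℕ} {x : E} (hx : x ∈ S.Q K (List.range M))
    (hv : S.Vx (fun i => i < M) x)
    (hb : ∃ y ∈ S.Q K (List.range M), S.c x < S.c y)
    (hmax : ∀ i < M, S.sl i x = 0 → ¬ S.Dep K i →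
      ∀ y ∈ S.Q (i :: K) (List.range M), S.c y ≤ S.c x) :
    ∃ z, S.One K z ∧ 0 < S.c z ∧ ∀ i < M, S.sl i x = 0 → 0 ≤ S.ln i z := by
  classical
  obtain ⟨y, hy, hlt⟩ := hb
  set I : List ℕ := (List.range M).filter (fun i => decide (S.sl i x = 0 ∧ ¬ S.Dep K i)) with hI
  have hmemI : ∀ i, i ∈ I ↔ i < M ∧ S.sl i x = 0 ∧ ¬ S.Dep K i := by
    intro i
    rw [hI, List.mem_filter, List.mem_range, decide_eq_true_eq]
  have hxI : x ∈ S.Q K I := ⟨hx.1, fun i hi => hx.2 i (List.mem_range.2 ((hmemI i).1 hi).1)⟩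
  have hyI : y ∈ S.Q K I := ⟨hy.1, fun i hi => hy.2 i (List.mem_range.2 ((hmemI i).1 hi).1)⟩
  have hvI : S.Vx (fun i => i ∈ K ∨ i ∈ I) x := by
    intro q hq
    have hqK : ∀ j ∈ K, S.ln j q = 0 := fun j hj => hq j (Or.inl hj) (hx.1 j hj)
    apply hv
    intro i hi h0
    by_cases hiK : S.Dep K i
    · exact hiK q hqK
    · exact hq i (Or.inr ((hmemI i).2 ⟨hi, h0, hiK⟩)) h0
  obtain ⟨h1, h2, h3⟩ := S.ray_of_inactive hxI hvI hyI hlt (by
    intro i hi z hz hz0
    obtain ⟨hiM, hi0, hiK⟩ := (hmemI i).1 hi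
    by_contra hc
    push Not at hc
    -- move a little from `x` towards `z`
    have hcz : 0 < S.c (z - x) := by rw [map_sub]; linarith
    have hzK : ∀ j ∈ K, S.ln j (z - x) = 0 := fun j hj => by
      rw [S.ln_sub, hx.1 j hj, hz.1 j hj, sub_zero]
    obtain ⟨ε, hε, hp⟩ := S.pert (List.range M) x (z - x) (by
      intro j hj
      have hjM := List.mem_range.1 hj
      rcases (hx.2 j hj).lt_or_eq with h | h
      · exact Or.inl h
      · right
        refine ⟨h.le, ?_⟩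
        by_cases hjK : S.Dep K j
        · rw [hjK _ hzK]
        · rw [S.ln_sub, ← h, sub_zero]
          exact hz.2 j ((hmemI j).2 ⟨hjM, h.symm, hjK⟩))
    have hw : x + ε • (z - x) ∈ S.Q (i :: K) (List.range M) := by
      refine ⟨fun j hj => ?_, hp ε hε.le le_rfl⟩
      rcases List.mem_cons.1 hj with rfl | hj
      · rw [S.smul_add, S.ln_sub, hi0, hz0]; ring
      · rw [S.smul_add, hzK j hj, hx.1 j hj]; ring
    have h4 := hmax i hiM hi0 hiK _ hw
    rw [map_add, map_smul, smul_eq_mul] at h4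
    have := mul_pos hε hcz
    linarith)
  refine ⟨y - x, h1, h2, fun i hi h0 => ?_⟩
  by_cases hiK : S.Dep K i
  · rw [hiK _ h1.1]
  · exact h3 i ((hmemI i).2 ⟨hi, h0, hiK⟩)

/-- The pivot on a face which is a line. -/
theorem line_spec (ho : Spec o vle S val) {J : List ℕ} {x : Pt} (hJ : ∀ j ∈ J, j < o.M)
    (hx : val x ∈ S.Q J (List.range o.M)) (hv : S.Vx (fun i => i < o.M) (val x))
    (hb : ∃ y ∈ S.Q J (List.range o.M), S.c (val x) < S.c y)
    (hmax : ∀ i < o.M, S.sl i (val x) = 0 → ¬ S.Dep J i →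
      ∀ y ∈ S.Q (i :: J) (List.range o.M), S.c y ≤ S.c (val x)) :
    (∃ z, S.One J z) ∧
    ((∃ y, o.lp J (List.range o.M) = .opt y ∧ Mv S o.M J (val x) (val y) ∧
      ∀ w ∈ S.Q J (List.range o.M), S.c w ≤ S.c (val y)) ∨
    (o.lp J (List.range o.M) = .unb ∧ Ry S o.M J (val x))) := by
  have hR : ∀ i ∈ List.range o.M, i < o.M := fun i hi => List.mem_range.1 hi
  obtain ⟨z, h1, h2, h3⟩ := line_dir hx hv hb hmax
  refine ⟨⟨z, h1⟩, ?_⟩
  cases h : o.lp J (List.range o.M) with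
  | infeas =>
    have := ho.infeas _ _ hJ hR h
    rw [this] at hx
    exact absurd hx (Set.notMem_empty _)
  | unb =>
    right
    refine ⟨rfl, J, z, fun j hj => hj, hJ, h1, hx, h2, fun i hi => ?_, hv⟩
    exact S.line_unb hx h1 h2 (ho.unb _ _ hJ hR h) i (List.mem_range.2 hi)
  | opt y =>
    left
    obtain ⟨h4, h5⟩ := ho.opt _ _ _ hJ hR h
    obtain ⟨t, ht, hyt, i, hi, hi0, hiz⟩ := S.line_opt hx h1 h2
      (fun i hi h0 => h3 i (List.mem_range.1 hi) h0) h4 h5
    refine ⟨y, rfl, ⟨J, z, t, fun j hj => hj, hJ, h1, hx, h4, h2, ht, hyt, hv, ?_⟩, h5⟩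
    -- `y` is a vertex
    intro q hq
    have hqK : ∀ j ∈ J, S.ln j q = 0 := fun j hj => hq j (hJ j hj) (h4.1 j hj)
    obtain ⟨s, rfl⟩ := h1.2 q hqK
    have h6 := hq i (List.mem_range.1 hi) hi0
    rw [map_smul, smul_eq_mul] at h6
    rcases mul_eq_zero.1 h6 with h7 | h7
    · rw [h7, zero_smul]
    · exact absurd h7 hiz.ne

end

end Pool.Agent.Simplex.Lar
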