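import Pool.Agent.Lib.MP_4d246d_lc.Lar.Geo

/-!
# The doubling rule as a stack machine

A frame `(J, q, s, base, acc, D, p)` explores the face with equalities `J`: it has to find the
goal of the face, or vertices of the face meeting `q` constraints. `base` is the path to the
current base vertex (latest vertex first), `s` a number of constraints already left behind,
`acc` the paths found in the finished stages, `D` the paths found in the current stage, which
meet at least `p` constraints.
-/

namespace Pool.Agent.Simplex.Lar

open Pool.Agent.Simplex.QP

/-- frames -/
abbrev LFrame (Pt : Type) : Type :=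
  List ℕ × ℕ × ℕ × List Pt × List (List Pt) × List (List Pt) × ℕ

/-- results of a frame: a path to the goal (`true`: unbounded edge there), or a list of paths -/
abbrev Out (Pt : Type) : Type := (List Pt × Bool) ⊕ List (List Pt)

/-- states of the machine -/
abbrev LState (Pt : Type) : Type := List (LFrame Pt) × Option (Out Pt)

variable {Pt Vl : Type} (o : Orc Pt Vl) (vle : Vl → Vl → Bool)

/-- comparison of results of linear programs -/
def resLe (a b : LRes Pt) : Bool :=
  match a, b with
  | .infeas, _ => true
  | _, .infeas => false
  | _, .unb => true
  | .unb, .opt _ => false
  | .opt y, .opt z => vle (o.obj y) (o.obj z)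

/-- the top of the constraint `i` on the face `J` -/
def topOf (J : List ℕ) (i : ℕ) : LRes Pt := o.lp (i :: J) (List.range o.M)

/-- is the constraint tight at the end of the path? -/
def ttHead (π : List Pt) (i : ℕ) : Bool :=
  match π with
  | [] => false
  | x :: _ => o.tt x i

/-- the proper constraints of the face `J` met by the paths of `D` -/
def cands (J : List ℕ) (D : List (List Pt)) : List (ℕ × List Pt) :=
  D.flatMap (fun π => ((List.range o.M).filter (fun i => ttHead o π i && !o.dep J i)).map
    (fun i => (i, π)))

/-- one step of the choice of the highest constraint -/
def pickStep (J : List ℕ) (a : Option (ℕ × List Pt)) (b : ℕ × List Pt) :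
    Option (ℕ × List Pt) :=
  match a with
  | none => some b
  | some c => if resLe o vle (topOf o J c.1) (topOf o J b.1) then some b else some c

/-- the highest constraint met by the paths of `D` -/
def pick (J : List ℕ) (D : List (List Pt)) : Option (ℕ × List Pt) :=
  (cands o J D).foldl (pickStep o vle J) none

/-- beginning of a stage: if a proper constraint tight at the base has a better point, the base
itself is the first path; otherwise the face is a line -/
def begin_ (J : List ℕ) (q s : ℕ) (base : List Pt) (acc : List (List Pt))
    (fs : List (LFrame Pt)) : LState Pt :=
  match base with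
  | [] => (fs, some (.inl ([], false)))
  | x :: ρ =>
    if better o vle J x then
      if (cands o J [x :: ρ]).any (fun c => better o vle (c.1 :: J) x) then
        ((J, q, s, x :: ρ, acc, [x :: ρ], 1) :: fs, none)
      else
        match o.lp J (List.range o.M) with
        | .opt y => (fs, some (.inl (y :: x :: ρ, false)))
        | _ => (fs, some (.inl (x :: ρ, true)))
    else (fs, some (.inl (x :: ρ, false)))

/-- continuation of a stage -/
def inner (J : List ℕ) (q s : ℕ) (base : List Pt) (acc D : List (List Pt)) (p : ℕ)
    (fs : List (LFrame Pt)) : LState Pt :=
  if q ≤ s + p then (fs, some (.inr (acc ++ D)))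
  else
    match pick o vle J D with
    | none => (fs, some (.inr (acc ++ D)))
    | some (i, π) => ((i :: J, 2 * p, 0, π, [], [], 0) :: (J, q, s, base, acc, D, p) :: fs, none)

/-- one step of the machine -/
def lstep (st : LState Pt) : LState Pt :=
  match st with
  | ([], r) => ([], r)
  | ((J, q, s, base, acc, [], _) :: fs, none) => begin_ o vle J q s base acc fs
  | ((J, q, s, base, acc, π :: D, p) :: fs, none) => inner o vle J q s base acc (π :: D) p fs
  | (_ :: fs, some (.inl (π, true))) => (fs, some (.inl (π, true)))
  | ((J, q, s, _, acc, D, p) :: fs, some (.inl (π, false))) =>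
    ((J, q, s + p, π, acc ++ D, [], 0) :: fs, none)
  | ((J, q, s, base, acc, D, p) :: fs, some (.inr D')) =>
    ((J, q, s, base, acc, D ++ D', 2 * p) :: fs, none)

end Pool.Agent.Simplex.Lar
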