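import Pool.Agent.Lib.MP_4d246d_lc.Lar.Run

/-!
# The big-step theorem for the doubling rule
-/

namespace Pool.Agent.Simplex.Lar

open Pool.Agent.Simplex.QP

variable {Pt Vl : Type} {o : Orc Pt Vl} {vle : Vl → Vl → Bool}
variable {E : Type*} [AddCommGroup E] [Module ℝ E] {S : Sys E} {val : Pt → E}
variable {F W : ℕ → ℕ → ℕ}

/-- invariant at the beginning of a stage of a frame of level `k + 1` started at `x` -/
structure InvA (F : ℕ → ℕ → ℕ) (S : Sys E) (M : ℕ) (val : Pt → E) (k : ℕ) (J : List ℕ)
    (q s : ℕ) (x : Pt) (ρ : List Pt) (z : Pt) (σ : List Pt) (acc : List (List Pt)) : Prop where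
  lt : s < q
  mem : val z ∈ S.Q J (List.range M)
  vx : S.Vx (fun i => i < M) (val z)
  le : S.c (val x) ≤ S.c (val z)
  ext : ∃ a, Ext S M val J a (x :: ρ) (z :: σ) ∧ a + F (k + 1) (q - s) ≤ F (k + 1) q
  accs : ∀ π' ∈ acc, ∃ m, Ext S M val J m (x :: ρ) π' ∧ m ≤ F (k + 1) q
  card : s ≤ (MetS S M val J (S.c (val x)) acc).card
  dead : ∀ i ∈ MetS S M val J (S.c (val x)) acc, ∀ y ∈ S.Q (i :: J) (List.range M),
    S.c y ≤ S.c (val z)
  dim : s = 0 ∨ 2 ≤ Module.finrank ℝ (S.V J)

/-- invariant inside a stage -/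
structure InvD (F : ℕ → ℕ → ℕ) (S : Sys E) (M : ℕ) (val : Pt → E) (k : ℕ) (J : List ℕ) (r : ℕ)
    (z : Pt) (σ : List Pt) (D : List (List Pt)) (j : ℕ) : Prop where
  ne : D ≠ []
  ext : ∀ π' ∈ D, ∃ m, Ext S M val J m (z :: σ) π' ∧
    m ≤ ∑ i ∈ Finset.range j, F k (2 ^ (i + 1))
  card : 2 ^ j ≤ (MetS S M val J (S.c (val z)) D).card
  lt : j = 0 ∨ 2 ^ (j - 1) < r
  dim : 2 ≤ Module.finrank ℝ (S.V J)

theorem lstep_true (f : LFrame Pt) (fs : List (LFrame Pt)) (π : List Pt) :
    lstep o vle (f :: fs, some (.inl (π, true))) = (fs, some (.inl (π, true))) := by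
  obtain ⟨J, q, s, base, acc, D, p⟩ := f
  cases D <;> rfl

theorem lstep_false (J : List ℕ) (q s : ℕ) (base : List Pt) (acc D : List (List Pt)) (p : ℕ)
    (fs : List (LFrame Pt)) (π : List Pt) :
    lstep o vle ((J, q, s, base, acc, D, p) :: fs, some (.inl (π, false))) =
      ((J, q, s + p, π, acc ++ D, [], 0) :: fs, none) := by
  cases D <;> rfl

theorem lstep_disc (J : List ℕ) (q s : ℕ) (base : List Pt) (acc D : List (List Pt)) (p : ℕ)
    (fs : List (LFrame Pt)) (D' : List (List Pt)) :
    lstep o vle ((J, q, s, base, acc, D, p) :: fs, some (.inr D')) =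
      ((J, q, s, base, acc, D ++ D', 2 * p) :: fs, none) := by
  cases D <;> rfl

/-- the union of the constraints met -/
theorem card_union {k : ℕ} {M : ℕ} {J : List ℕ} {q s : ℕ} {x : Pt} {ρ : List Pt} {z : Pt}
    {σ : List Pt} {acc D : List (List Pt)} {p : ℕ}
    (hA : InvA F S M val k J q s x ρ z σ acc)
    (hcard : p ≤ (MetS S M val J (S.c (val z)) D).card) :
    s + p ≤ (MetS S M val J (S.c (val x)) (acc ++ D)).card := by
  classical
  have hdisj : Disjoint (MetS S M val J (S.c (val x)) acc) (MetS S M val J (S.c (val z)) D) := by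
    rw [Finset.disjoint_left]
    intro i h1 h2
    obtain ⟨_, _, _, y, hy, hlt⟩ := mem_MetS.1 h2
    exact absurd (hA.dead i h1 y hy) (not_le.2 hlt)
  have hsub : MetS S M val J (S.c (val x)) acc ∪ MetS S M val J (S.c (val z)) D ⊆
      MetS S M val J (S.c (val x)) (acc ++ D) := by
    intro i hi
    rcases Finset.mem_union.1 hi with h | h
    · obtain ⟨h1, h2, ⟨π, h3, h4⟩, h5⟩ := mem_MetS.1 h
      exact mem_MetS.2 ⟨h1, h2, ⟨π, List.mem_append_left _ h3, h4⟩, h5⟩
    · obtain ⟨h1, h2, ⟨π, h3, h4⟩, y, hy, hlt⟩ := mem_MetS.1 h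
      exact mem_MetS.2 ⟨h1, h2, ⟨π, List.mem_append_right _ h3, h4⟩, y, hy, hA.le.trans_lt hlt⟩
  calc s + p ≤ (MetS S M val J (S.c (val x)) acc).card + (MetS S M val J (S.c (val z)) D).card :=
        Nat.add_le_add hA.card hcard
    _ = (MetS S M val J (S.c (val x)) acc ∪ MetS S M val J (S.c (val z)) D).card :=
        (Finset.card_union_of_disjoint hdisj).symm
    _ ≤ _ := Finset.card_le_card hsub

/-- the induction hypothesis of level `k` -/
def IH (o : Orc Pt Vl) (vle : Vl → Vl → Bool) (S : Sys E) (val : Pt → E) (F W : ℕ → ℕ → ℕ)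
    (k : ℕ) : Prop :=
  ∀ (J : List ℕ) (q : ℕ) (x : Pt) (ρ : List Pt) (fs : List (LFrame Pt)),
    Module.finrank ℝ (S.V J) ≤ k → (∀ j ∈ J, j < o.M) → val x ∈ S.Q J (List.range o.M) →
    S.Vx (fun i => i < o.M) (val x) → 2 ≤ q →
    ∃ (out : Out Pt) (n : ℕ),
      (lstep o vle)^[n] ((J, q, 0, x :: ρ, [], [], 0) :: fs, none) = (fs, some out) ∧
      n ≤ W k q ∧ OutOK F S o.M val k J q (x :: ρ) out

/-- the frame stops because enough constraints are met -/
theorem stop_spec (hF : Cst F W) {k : ℕ} (hk1 : 1 ≤ k) {J : List ℕ} {q s : ℕ} {x : Pt}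
    {ρ : List Pt} {z : Pt} {σ : List Pt} {acc : List (List Pt)} {fs : List (LFrame Pt)}
    (hA : InvA F S o.M val k J q s x ρ z σ acc) {j : ℕ} {D : List (List Pt)}
    (hD : InvD F S o.M val k J (q - s) z σ D j) (hstop : q ≤ s + 2 ^ j) :
    ∃ (out : Out Pt) (n : ℕ),
      (lstep o vle)^[n] ((J, q, s, z :: σ, acc, D, 2 ^ j) :: fs, none) = (fs, some out) ∧
      n + (1 + ∑ i ∈ Finset.range j, (W k (2 ^ (i + 1)) + 2)) ≤ W (k + 1) (q - s) ∧
      OutOK F S o.M val (k + 1) J q (x :: ρ) out := by
  obtain ⟨π0, D0, rfl⟩ := List.exists_cons_of_ne_nil hD.ne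
  obtain ⟨a, ha1, ha2⟩ := hA.ext
  have hlt := hA.lt
  have hAj : ∑ i ∈ Finset.range j, F k (2 ^ (i + 1)) ≤ F (k + 1) (q - s) := by
    rcases Nat.eq_zero_or_pos j with rfl | hj
    · simp
    · obtain ⟨j', rfl⟩ : ∃ j', j = j' + 1 := ⟨j - 1, by omega⟩
      have h1 := hF.gain k j' (q - s) hk1 (by
        rcases hD.lt with h | h
        · omega
        · simpa using h)
      omega
  have hUj : 1 + (1 + ∑ i ∈ Finset.range j, (W k (2 ^ (i + 1)) + 2)) ≤ W (k + 1) (q - s) := by
    rcases Nat.eq_zero_or_pos j with rfl | hj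
    · have := hF.wone (k + 1) (q - s) (by omega)
      simpa using this
    · obtain ⟨j', rfl⟩ : ∃ j', j = j' + 1 := ⟨j - 1, by omega⟩
      have hlt' : 2 ^ j' < q - s := by
        rcases hD.lt with h | h
        · omega
        · simpa using h
      have h1 := hF.wgain k j' (q - s) hk1 hlt'
      have h2 := hF.wone (k + 1) (q - s - 2 ^ j') (by omega)
      omega
  refine ⟨.inr (acc ++ (π0 :: D0)), 1, ?_, hUj, ?_, x, ρ, rfl, ?_⟩
  · rw [Function.iterate_one]
    simp only [lstep, inner]
    rw [if_pos hstop]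
  · intro π' hπ'
    rcases List.mem_append.1 hπ' with h | h
    · exact hA.accs π' h
    · obtain ⟨m, h1, h2⟩ := hD.ext π' h
      exact ⟨a + m, ha1.trans h1, by omega⟩
  · have := card_union hA hD.card
    omega

theorem inner_spec [FiniteDimensional ℝ E] (hF : Cst F W) (ho : Spec o vle S val) {k : ℕ}
    (ih : IH o vle S val F W k) {J : List ℕ} {q s : ℕ} {x : Pt} {ρ : List Pt} {z : Pt}
    {σ : List Pt} {acc : List (List Pt)} {fs : List (LFrame Pt)}
    (hk : Module.finrank ℝ (S.V J) ≤ k + 1) (hJ : ∀ j ∈ J, j < o.M)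
    (hA : InvA F S o.M val k J q s x ρ z σ acc) :
    ∀ (f j : ℕ) (D : List (List Pt)), q - s ≤ 2 ^ j + f →
    InvD F S o.M val k J (q - s) z σ D j →
    (∃ (out : Out Pt) (n : ℕ),
      (lstep o vle)^[n] ((J, q, s, z :: σ, acc, D, 2 ^ j) :: fs, none) = (fs, some out) ∧
      n + (1 + ∑ i ∈ Finset.range j, (W k (2 ^ (i + 1)) + 2)) ≤ W (k + 1) (q - s) ∧
      OutOK F S o.M val (k + 1) J q (x :: ρ) out) ∨
    (∃ (s' : ℕ) (z' : Pt) (σ' : List Pt) (acc' : List (List Pt)) (n : ℕ),
      (lstep o vle)^[n] ((J, q, s, z :: σ, acc, D, 2 ^ j) :: fs, none) =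
        ((J, q, s', z' :: σ', acc', [], 0) :: fs, none) ∧ s < s' ∧
      InvA F S o.M val k J q s' x ρ z' σ' acc' ∧
      n + (1 + ∑ i ∈ Finset.range j, (W k (2 ^ (i + 1)) + 2)) + W (k + 1) (q - s') ≤
        W (k + 1) (q - s)) := by
  classical
  intro f
  induction f with
  | zero =>
    intro j D hf hD
    have hk1 : 1 ≤ k := by have := hD.dim; omega
    exact Or.inl (stop_spec hF hk1 hA hD (by have := hA.lt; omega))
  | succ f ihf =>
    intro j D hf hD
    have hk1 : 1 ≤ k := by have := hD.dim; omega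
    by_cases hstop : q ≤ s + 2 ^ j
    · exact Or.inl (stop_spec hF hk1 hA hD hstop)
    · have hlt : s + 2 ^ j < q := by omega
      have hp1 : 1 ≤ 2 ^ j := Nat.one_le_two_pow
      -- candidates exist
      obtain ⟨i0, hi0⟩ : ∃ i, i ∈ MetS S o.M val J (S.c (val z)) D := by
        apply Finset.card_pos.1 (lt_of_lt_of_le hp1 hD.card) |>.exists_mem
      have hc0 := mem_MetS.1 hi0
      have hne : cands o J D ≠ [] := by
        obtain ⟨h1, h2, ⟨π, h3, y, τ, h4, h5⟩, h6⟩ := hc0
        intro hnil
        have : (i0, π) ∈ cands o J D := (mem_cands ho hJ).2 ⟨h3, h1, h2, y, τ, h4, h5⟩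
        rw [hnil] at this
        exact absurd this List.not_mem_nil
      obtain ⟨⟨i, π⟩, hcm, hpick, hhigh⟩ := pick_spec ho J (cands o J D) hne
      obtain ⟨hπD, hiM, hidep, u, τ, rfl, hiu⟩ := (mem_cands ho hJ).1 hcm
      obtain ⟨m1, he1, hm1⟩ := hD.ext _ hπD
      obtain ⟨⟨u', τ', heq, huQ, huV⟩, hcle⟩ := he1.valid ⟨z, σ, rfl, hA.mem, hA.vx⟩
      obtain ⟨rfl, rfl⟩ := List.cons.inj heq
      have hzu : S.c (val z) ≤ S.c (val u) := hcle z σ u τ rfl rfl
      have hJi : ∀ j ∈ i :: J, j < o.M := fun j hj => by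
        rcases List.mem_cons.1 hj with rfl | hj
        · exact hiM
        · exact hJ j hj
      have huQ' : val u ∈ S.Q (i :: J) (List.range o.M) := by
        refine ⟨fun j hj => ?_, huQ.2⟩
        rcases List.mem_cons.1 hj with rfl | hj
        · exact hiu
        · exact huQ.1 j hj
      have hfr : Module.finrank ℝ (S.V (i :: J)) ≤ k := by
        have := finrank_V_lt (S := S) hidep
        omega
      obtain ⟨out, n', hn', hnw, hout⟩ := ih (i :: J) (2 * 2 ^ j) u τ
        ((J, q, s, z :: σ, acc, D, 2 ^ j) :: fs) hfr hJi huQ' huV (by omega)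
      have h2p : 2 * 2 ^ j = 2 ^ (j + 1) := by rw [pow_succ]; ring
      rw [h2p] at hnw
      -- first step: push
      obtain ⟨π0, D0, hD0⟩ := List.exists_cons_of_ne_nil hD.ne
      have hstep1 : lstep o vle ((J, q, s, z :: σ, acc, D, 2 ^ j) :: fs, none) =
          ((i :: J, 2 * 2 ^ j, 0, u :: τ, [], [], 0) ::
            (J, q, s, z :: σ, acc, D, 2 ^ j) :: fs, none) := by
        subst hD0
        simp only [lstep, inner]
        rw [if_neg hstop]
        unfold pick
        rw [hpick]
      have hrun : (lstep o vle)^[n' + 1] ((J, q, s, z :: σ, acc, D, 2 ^ j) :: fs, none) =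
          ((J, q, s, z :: σ, acc, D, 2 ^ j) :: fs, some out) := by
        rw [Function.iterate_succ_apply, hstep1, hn']
      obtain ⟨a, ha1, ha2⟩ := hA.ext
      have hJsub : ∀ j ∈ J, j ∈ i :: J := fun j hj => List.mem_cons_of_mem _ hj
      have hgain := hF.gain k j (q - s) hk1 (by omega)
      have hwgain := hF.wgain k j (q - s) hk1 (by omega)
      rw [Finset.sum_range_succ] at hgain hwgain
      have hqs : q - s - 2 ^ j = q - (s + 2 ^ j) := by omega
      rw [hqs] at hgain hwgain
      match out, hout with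
      | .inl (π', true), ⟨⟨m2, he2, hm2⟩, x', ρ', hx', hry⟩ =>
        rw [h2p] at hm2
        left
        refine ⟨.inl (π', true), n' + 2, ?_, ?_,
          ⟨a + m1 + m2, ((ha1.trans he1).trans (he2.mono hJsub)), ?_⟩, x', ρ', hx',
          hry.mono hJsub⟩
        · rw [show n' + 2 = 1 + (n' + 1) by omega, Function.iterate_add_apply, hrun,
            Function.iterate_one, lstep_true]
        · omega
        · omega
      | .inl (π', false), ⟨⟨m2, he2, hm2⟩, x', ρ', hx', hopt⟩ =>
        rw [h2p] at hm2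
        right
        subst hx'
        obtain ⟨⟨v', w', heq', hvQ, hvV⟩, hcle'⟩ := he2.valid ⟨u, τ, rfl, huQ', huV⟩
        obtain ⟨rfl, rfl⟩ := List.cons.inj heq'
        have hux : S.c (val u) ≤ S.c (val x') := hcle' u τ x' ρ' rfl rfl
        refine ⟨s + 2 ^ j, x', ρ', acc ++ D, n' + 2, ?_, by omega,
          ⟨hlt, ?_, hvV, ?_, ?_, ?_, ?_, ?_, Or.inr hD.dim⟩, ?_⟩
        · rw [show n' + 2 = 1 + (n' + 1) by omega, Function.iterate_add_apply, hrun,
            Function.iterate_one, lstep_false]
        · exact ⟨fun j hj => hvQ.1 j (hJsub j hj), hvQ.2⟩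
        · exact hA.le.trans (hzu.trans hux)
        · exact ⟨a + m1 + m2, (ha1.trans he1).trans (he2.mono hJsub), by omega⟩
        · intro π'' hπ''
          rcases List.mem_append.1 hπ'' with h | h
          · exact hA.accs π'' h
          · obtain ⟨m, h1, h2⟩ := hD.ext π'' h
            exact ⟨a + m, ha1.trans h1, by omega⟩
        · exact card_union hA hD.card
        · intro j' hj' y hy
          obtain ⟨h1, h2, ⟨π'', h3, y'', τ'', h4, h5⟩, h6⟩ := mem_MetS.1 hj'
          rcases List.mem_append.1 h3 with h | h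
          · have := hA.dead j' (mem_MetS.2 ⟨h1, h2, ⟨π'', h, y'', τ'', h4, h5⟩, h6⟩) y hy
            exact this.trans (hzu.trans hux)
          · have h7 : (j', π'') ∈ cands o J D := (mem_cands ho hJ).2 ⟨h, h1, h2, y'', τ'', h4, h5⟩
            exact top_bound ho hJ h1 hiM (hhigh _ h7) hopt y hy
        · omega
      | .inr D', ⟨hD'1, x', ρ', hx', hcard'⟩ =>
        rw [h2p] at hD'1 hcard'
        obtain ⟨rfl, rfl⟩ := List.cons.inj hx'
        have hrun2 : (lstep o vle)^[n' + 2] ((J, q, s, z :: σ, acc, D, 2 ^ j) :: fs, none) =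
            ((J, q, s, z :: σ, acc, D ++ D', 2 ^ (j + 1)) :: fs, none) := by
          rw [show n' + 2 = 1 + (n' + 1) by omega, Function.iterate_add_apply, hrun,
            Function.iterate_one, lstep_disc, h2p]
        have hD2 : InvD F S o.M val k J (q - s) z σ (D ++ D') (j + 1) := by
          refine ⟨?_, ?_, ?_, Or.inr (by simp only [Nat.add_sub_cancel]; omega), hD.dim⟩
          · intro hnil
            exact hD.ne (List.append_eq_nil_iff.1 hnil).1
          · intro π'' hπ''
            rw [Finset.sum_range_succ]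
            rcases List.mem_append.1 hπ'' with h | h
            · obtain ⟨m, h1, h2⟩ := hD.ext π'' h
              exact ⟨m, h1, by omega⟩
            · obtain ⟨m, h1, h2⟩ := hD'1 π'' h
              exact ⟨m1 + m, he1.trans (h1.mono hJsub), by omega⟩
          · refine hcard'.trans (Finset.card_le_card ?_)
            intro j' hj'
            obtain ⟨h1, h2, ⟨π'', h3, h4⟩, y, hy, hlt'⟩ := mem_MetS.1 hj'
            refine mem_MetS.2 ⟨h1, fun hd => h2 fun q' hq' => hd q' fun j'' hj'' =>
              hq' j'' (hJsub j'' hj''), ⟨π'', List.mem_append_right _ h3, h4⟩, y,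
              ⟨fun j'' hj'' => ?_, hy.2⟩, hzu.trans_lt hlt'⟩
            rcases List.mem_cons.1 hj'' with rfl | hj''
            · exact hy.1 _ List.mem_cons_self
            · exact hy.1 j'' (List.mem_cons_of_mem _ (hJsub j'' hj''))
        rcases ihf (j + 1) (D ++ D') (by rw [pow_succ]; omega) hD2 with
          ⟨out', n2, hn2, hb1, hok⟩ | ⟨s', z', σ', acc', n2, hn2, hss, hA', hb⟩
        · left
          refine ⟨out', n2 + (n' + 2), ?_, ?_, hok⟩
          · rw [Function.iterate_add_apply, hrun2, hn2]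
          · rw [Finset.sum_range_succ] at hb1
            omega
        · right
          refine ⟨s', z', σ', acc', n2 + (n' + 2), ?_, hss, hA', ?_⟩
          · rw [Function.iterate_add_apply, hrun2, hn2]
          · rw [Finset.sum_range_succ] at hb
            omega

theorem stage_spec [FiniteDimensional ℝ E] (hF : Cst F W) (ho : Spec o vle S val) {k : ℕ}
    (ih : IH o vle S val F W k) {J : List ℕ} {q : ℕ} {x : Pt} {ρ : List Pt}
    {fs : List (LFrame Pt)} (hq : 2 ≤ q)
    (hk : Module.finrank ℝ (S.V J) ≤ k + 1) (hJ : ∀ j ∈ J, j < o.M) :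
    ∀ (f s : ℕ) (z : Pt) (σ : List Pt) (acc : List (List Pt)), q - s ≤ f →
    InvA F S o.M val k J q s x ρ z σ acc →
    ∃ (out : Out Pt) (n : ℕ),
      (lstep o vle)^[n] ((J, q, s, z :: σ, acc, [], 0) :: fs, none) = (fs, some out) ∧
      n ≤ W (k + 1) (q - s) ∧ OutOK F S o.M val (k + 1) J q (x :: ρ) out := by
  classical
  intro f
  induction f with
  | zero => intro s z σ acc hf hA; have := hA.lt; omega
  | succ f ihf =>
    intro s z σ acc hf hA
    have hlt := hA.lt
    obtain ⟨a, ha1, ha2⟩ := hA.ext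
    have hw2 := hF.wone (k + 1) (q - s) (by omega)
    by_cases hb : better o vle J z = true
    · have hb' := (better_iff ho hJ z).1 hb
      by_cases hal : (cands o J [z :: σ]).any (fun c => better o vle (c.1 :: J) z) = true
      · -- a better point on a proper tight constraint
        have hstep : lstep o vle ((J, q, s, z :: σ, acc, [], 0) :: fs, none) =
            ((J, q, s, z :: σ, acc, [z :: σ], 2 ^ 0) :: fs, none) := by
          simp only [lstep, begin_]
          rw [if_pos hb, if_pos hal, pow_zero]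
        obtain ⟨⟨i, π⟩, hc1, hc2⟩ := List.any_eq_true.1 hal
        obtain ⟨hπ, hiM, hidep, z', σ', hzz, hi0⟩ := (mem_cands ho hJ).1 hc1
        rw [List.mem_singleton] at hπ
        rw [hπ] at hzz
        obtain ⟨rfl, rfl⟩ := List.cons.inj hzz
        have hJi : ∀ j ∈ i :: J, j < o.M := fun j hj => by
          rcases List.mem_cons.1 hj with rfl | hj
          · exact hiM
          · exact hJ j hj
        obtain ⟨y, hy, hzy⟩ := (better_iff ho hJi z).1 hc2
        -- the dimension
        have hdim : 2 ≤ Module.finrank ℝ (S.V J) := by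
          have h1 := finrank_V_lt (S := S) hidep
          have h2 : y - val z ∈ S.V (i :: J) := fun j hj => by
            rw [S.ln_sub, hy.1 j hj]
            rcases List.mem_cons.1 hj with rfl | hj
            · rw [hi0, sub_zero]
            · rw [hA.mem.1 j hj, sub_zero]
          have h3 : 0 < Module.finrank ℝ (S.V (i :: J)) := by
            rw [Module.finrank_pos_iff_exists_ne_zero]
            refine ⟨⟨y - val z, h2⟩, fun h => ?_⟩
            have h4 : y - val z = 0 := congrArg Subtype.val h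
            rw [sub_eq_zero] at h4
            rw [h4] at hzy
            exact lt_irrefl _ hzy
          omega
        have hD : InvD F S o.M val k J (q - s) z σ [z :: σ] 0 := by
          refine ⟨by simp, fun π' hπ' => ?_, ?_, Or.inl rfl, hdim⟩
          · rw [List.mem_singleton] at hπ'
            subst hπ'
            exact ⟨0, Ext.refl _, Nat.zero_le _⟩
          · rw [pow_zero]
            exact Finset.card_pos.2 ⟨i, mem_MetS.2 ⟨hiM, hidep, ⟨z :: σ, List.mem_singleton.2 rfl,
              z, σ, rfl, hi0⟩, y, hy, hzy⟩⟩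
        rcases inner_spec hF ho ih (fs := fs) hk hJ hA (q - s) 0 [z :: σ] (by omega) hD with
          ⟨out, n, hn, hb1, hok⟩ | ⟨s', z', σ', acc', n, hn, hss, hA', hb⟩
        · refine ⟨out, n + 1, ?_, ?_, hok⟩
          · rw [Function.iterate_succ_apply, hstep, hn]
          · simp only [Finset.range_zero, Finset.sum_empty] at hb1
            omega
        · obtain ⟨out, n2, hn2, hn2w, hok⟩ := ihf s' z' σ' acc' (by omega) hA'
          refine ⟨out, n2 + (n + 1), ?_, ?_, hok⟩
          · rw [Function.iterate_add_apply, Function.iterate_succ_apply, hstep, hn, hn2]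
          · simp only [Finset.range_zero, Finset.sum_empty] at hb
            omega
      · -- the face is a line
        have hmax : ∀ i < o.M, S.sl i (val z) = 0 → ¬ S.Dep J i →
            ∀ y ∈ S.Q (i :: J) (List.range o.M), S.c y ≤ S.c (val z) := by
          intro i hi h0 hd y hy
          by_contra hlt'
          push Not at hlt'
          apply hal
          refine List.any_eq_true.2 ⟨(i, z :: σ), (mem_cands ho hJ).2
            ⟨List.mem_singleton.2 rfl, hi, hd, z, σ, rfl, h0⟩, ?_⟩
          refine (better_iff ho (fun j hj => ?_) z).2 ⟨y, hy, hlt'⟩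
          rcases List.mem_cons.1 hj with rfl | hj
          · exact hi
          · exact hJ j hj
        obtain ⟨⟨d, hd⟩, hsp⟩ := line_spec ho hJ hA.mem hA.vx hb' hmax
        have hfr1 : Module.finrank ℝ (S.V J) ≤ 1 := by
          rw [finrank_le_one_iff]
          refine ⟨⟨d, hd.1⟩, fun w => ?_⟩
          obtain ⟨t, ht⟩ := hd.2 w.1 w.2
          exact ⟨t, Subtype.ext ht.symm⟩
        have hs0 : s = 0 := by
          rcases hA.dim with h | h
          · exact h
          · omega
        subst hs0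
        rw [Nat.sub_zero] at ha2
        have h1F := hF.one (k + 1) q (by omega) hq
        rcases hsp with ⟨y, hy1, hy2, hy3⟩ | ⟨hu1, hu2⟩
        · refine ⟨.inl (y :: z :: σ, false), 1, ?_, by omega,
            ⟨a + 1, ha1.trans (Ext.step (Ext.refl _) hy2), by omega⟩, y, z :: σ, rfl, hy3⟩
          rw [Function.iterate_one]
          simp only [lstep, begin_]
          rw [if_pos hb, if_neg hal, hy1]
        · refine ⟨.inl (z :: σ, true), 1, ?_, by omega, ⟨a, ha1, by omega⟩, z, σ, rfl, hu2⟩
          rw [Function.iterate_one]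
          simp only [lstep, begin_]
          rw [if_pos hb, if_neg hal, hu1]
    · refine ⟨.inl (z :: σ, false), 1, ?_, by omega, ⟨a, ha1, by omega⟩, z, σ, rfl, ?_⟩
      · rw [Function.iterate_one]
        simp only [lstep, begin_]
        rw [if_neg hb]
      · intro y hy
        by_contra hc
        push Not at hc
        exact hb ((better_iff ho hJ z).2 ⟨y, hy, hc⟩)

/-- The big-step theorem. -/
theorem run_spec [FiniteDimensional ℝ E] (hF : Cst F W) (ho : Spec o vle S val) (k : ℕ) :
    IH o vle S val F W k := by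
  classical
  induction k with
  | zero =>
    intro J q x ρ fs hk hJ hx hv hq
    have hbot : S.V J = ⊥ := by
      apply Submodule.finrank_eq_zero.1
      omega
    have hopt : ∀ y ∈ S.Q J (List.range o.M), S.c y ≤ S.c (val x) := by
      intro y hy
      have h1 : y - val x ∈ S.V J := fun j hj => by
        rw [S.ln_sub, hx.1 j hj, hy.1 j hj, sub_zero]
      rw [hbot, Submodule.mem_bot] at h1
      rw [sub_eq_zero.1 h1]
    have hb : ¬ better o vle J x = true := by
      intro h
      obtain ⟨y, hy, hlt⟩ := (better_iff ho hJ x).1 h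
      exact absurd (hopt y hy) (not_le.2 hlt)
    refine ⟨.inl (x :: ρ, false), 1, ?_, ?_, ⟨0, Ext.refl _, by simp⟩, x, ρ, rfl, hopt⟩
    · rw [Function.iterate_one]
      simp only [lstep, begin_]
      rw [if_neg hb]
    · have := hF.wone 0 q (by omega); omega
  | succ k ih =>
    intro J q x ρ fs hk hJ hx hv hq
    have hA : InvA F S o.M val k J q 0 x ρ x ρ [] := by
      refine ⟨by omega, hx, hv, le_rfl, ⟨0, Ext.refl _, by simp⟩, fun π' h => ?_, by simp, ?_,
        Or.inl rfl⟩
      · exact absurd h List.not_mem_nil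
      · intro i hi
        obtain ⟨_, _, ⟨π, h, _⟩, _⟩ := mem_MetS.1 hi
        exact absurd h List.not_mem_nil
    obtain ⟨out, n, h1, h2, h3⟩ := stage_spec (fs := fs) hF ho ih hq hk hJ q 0 x ρ [] (by omega) hA
    exact ⟨out, n, h1, by simpa using h2, h3⟩

end Pool.Agent.Simplex.Lar
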