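import Pool.Agent.Lib.MP_4d246d_lc.Lar.Real

/-!
# Short monotone paths on polyhedra given by inequalities
-/

namespace Pool.Agent.Simplex.Lar

open Pool.Agent.Simplex.QP

theorem feas_eq {N d : ℕ} (A : Fin N → Fin d → ℝ) (b : Fin N → ℝ) (c : Fin d → ℝ) :
    (sysR A b c).Q [] (List.range N) = {x | ∀ i, ∑ j, A i j * x j ≤ b i} := by
  ext x
  constructor
  · rintro ⟨-, h⟩ i
    have := h i (List.mem_range.2 i.2)
    rw [sysR_sl A b c i.2] at this
    linarith
  · intro h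
    refine ⟨fun i hi => absurd hi List.not_mem_nil, fun i hi => ?_⟩
    rw [sysR_sl A b c (List.mem_range.1 hi)]
    have := h ⟨i, List.mem_range.1 hi⟩
    linarith

/-- A polyhedron with a vertex has at least `d` inequalities. -/
theorem le_of_vertex {N d : ℕ} (A : Fin N → Fin d → ℝ) (b : Fin N → ℝ) (c : Fin d → ℝ)
    {x : Fin d → ℝ} (hv : (sysR A b c).Vx (fun i => i < N) x) : d ≤ N := by
  have h1 := finrank_V_append (S := sysR A b c) (List.range N) []
  have h2 : (sysR A b c).V ([] : List ℕ) = ⊤ := by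
    ext q
    simp only [Submodule.mem_top, iff_true]
    exact fun j hj => absurd hj List.not_mem_nil
  have h3 : (sysR A b c).V (List.range N ++ []) = ⊥ := by
    rw [List.append_nil, eq_bot_iff]
    intro q hq
    rw [Submodule.mem_bot]
    exact hv q fun i hi _ => hq i (List.mem_range.2 hi)
  rw [h2, h3, finrank_top, finrank_bot, Module.finrank_fin_fun, List.length_range] at h1
  omega

/-- Short monotone paths. -/
theorem real_path {N d : ℕ} (A : Fin N → Fin d → ℝ) (b : Fin N → ℝ) (c v₀ : Fin d → ℝ)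
    (P : Set (Fin d → ℝ)) (hP : P = {x | ∀ i, ∑ j, A i j * x j ≤ b i})
    (hv : v₀ ∈ P.extremePoints ℝ) :
    ∃ (k : ℕ) (p : ℕ → Fin d → ℝ),
      k ≤ Fc (min d (N - d + 1)) (min N (2 * (N - d) + 1) + 1) ∧
      (d = 0 ∨ 1 ≤ N) ∧
      p 0 = v₀ ∧
      (∀ i < k, p i ≠ p (i + 1) ∧ p i ∈ P.extremePoints ℝ ∧ p (i + 1) ∈ P.extremePoints ℝ ∧
        IsExtreme ℝ P (segment ℝ (p i) (p (i + 1))) ∧
        ∑ j, c j * p i j < ∑ j, c j * p (i + 1) j) ∧
      p k ∈ P.extremePoints ℝ ∧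
      ((∀ y ∈ P, ∑ j, c j * y j ≤ ∑ j, c j * p k j) ∨
        ∃ z : Fin d → ℝ, 0 < ∑ j, c j * z j ∧
          IsExtreme ℝ P {w | ∃ s : ℝ, 0 ≤ s ∧ w = p k + s • z}) := by
  classical
  set S := sysR A b c with hS
  have hPS : S.Q [] (List.range N) = P := by rw [hP]; exact feas_eq A b c
  have hx : v₀ ∈ S.Q [] (List.range N) := by rw [hPS]; exact hv.1
  have hvx : S.Vx (fun i => i < N) v₀ := Sys.vx_of_extreme (by rw [hPS]; exact hv)
  have hN : d ≤ N := le_of_vertex A b c hvx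
  obtain ⟨m, rfl⟩ := Nat.exists_eq_add_of_le' hN
  have ho := spec_orcR A b c
  obtain ⟨k, p, h1, h2, h3, h4⟩ := short_path (x := v₀) ho hx hvx (d := d) (m := m)
    (Module.finrank_fin_fun ℝ) rfl
  have e1 : m + d - d = m := by omega
  have hM : (orcR (sysR A b c) (m + d)).M = m + d := rfl
  rw [hM] at h3 h4
  rw [← hS] at h3 h4
  have hedge : ∀ i < k, p i ≠ p (i + 1) ∧ p i ∈ P.extremePoints ℝ ∧
      p (i + 1) ∈ P.extremePoints ℝ ∧ IsExtreme ℝ P (segment ℝ (p i) (p (i + 1))) ∧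
        ∑ j, c j * p i j < ∑ j, c j * p (i + 1) j := by
    intro i hi
    obtain ⟨a1, a2, a3, a4⟩ := (h3 i hi).edge
    rw [hPS] at a1 a3 a4
    refine ⟨fun h => ?_, a3, a4, a1, a2⟩
    rw [← h] at a2
    exact lt_irrefl _ a2
  refine ⟨k, p, by rw [e1]; exact h1, by omega, h2, hedge, ?_, ?_⟩
  · rcases Nat.eq_zero_or_pos k with rfl | hk
    · rw [h2]; exact hv
    · have := (hedge (k - 1) (by omega)).2.2.1
      rwa [show k - 1 + 1 = k by omega] at this
  · rcases h4 with ⟨_, h5⟩ | h5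
    · left
      rw [hPS] at h5
      exact h5
    · right
      obtain ⟨z, b1, b2, b3⟩ := h5.ray
      rw [hPS] at b2
      exact ⟨z, b1, b2⟩

end Pool.Agent.Simplex.Lar
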