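import Pool.Agent.Lib.MP_4d246d_lc.Lar.Main
import Pool.Agent.Lib.MP_4d246d_lc.Lar.Cost
import Pool.Agent.Lib.MP_4d246d_lc.QP.Duality
import Pool.Agent.Lib.MP_4d246d_lc.QP.Edges
import Pool.Agent.Lib.MP_4d246d_lc.QP.RootFace

/-!
# The oracle for a linear program with real data, and monotone paths
-/

namespace Pool.Agent.Simplex.Lar

open Pool.Agent.Simplex.QP

/-- the linear form with coefficients `a` -/
def lf {d : ℕ} (a : Fin d → ℝ) : (Fin d → ℝ) →ₗ[ℝ] ℝ where
  toFun x := ∑ j, a j * x j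
  map_add' x y := by
    rw [← Finset.sum_add_distrib]
    exact Finset.sum_congr rfl fun j _ => by rw [Pi.add_apply]; ring
  map_smul' r x := by
    rw [RingHom.id_apply, smul_eq_mul, Finset.mul_sum]
    exact Finset.sum_congr rfl fun j _ => by rw [Pi.smul_apply, smul_eq_mul]; ring

theorem lf_apply {d : ℕ} (a x : Fin d → ℝ) : lf a x = ∑ j, a j * x j := rfl

/-- the system of the inequalities `A i ⬝ x ≤ b i` -/
noncomputable def sysR {N d : ℕ} (A : Fin N → Fin d → ℝ) (b : Fin N → ℝ) (c : Fin d → ℝ) :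
    Sys (Fin d → ℝ) where
  sl i x := if h : i < N then b ⟨i, h⟩ - lf (A ⟨i, h⟩) x else 0
  ln i := if h : i < N then -lf (A ⟨i, h⟩) else 0
  add i x q := by
    by_cases h : i < N
    · simp only [h, dif_pos, map_add, LinearMap.neg_apply]; ring
    · simp [h]
  c := lf c

theorem sysR_sl {N d : ℕ} (A : Fin N → Fin d → ℝ) (b : Fin N → ℝ) (c : Fin d → ℝ) {i : ℕ}
    (h : i < N) (x : Fin d → ℝ) : (sysR A b c).sl i x = b ⟨i, h⟩ - ∑ j, A ⟨i, h⟩ j * x j := by
  show (if h : i < N then b ⟨i, h⟩ - lf (A ⟨i, h⟩) x else 0) = _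
  rw [dif_pos h, lf_apply]

/-- the exact oracle -/
noncomputable def orcR {d : ℕ} (S : Sys (Fin d → ℝ)) (N : ℕ) : Orc (Fin d → ℝ) ℝ :=
  open Classical in
  { M := N
    tt := fun x i => decide (S.sl i x = 0)
    obj := fun x => S.c x
    dep := fun J i => decide (S.Dep J i)
    lp := fun J I => if S.Q J I = ∅ then .infeas else
      if h : ∃ p ∈ S.Q J I, ∀ y ∈ S.Q J I, S.c y ≤ S.c p then .opt h.choose else .unb }

/-- A linear program with a bounded objective has an optimal solution. -/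
theorem exists_max {κ ι : Type} [Fintype κ] [Fintype ι] {n : ℕ} (Ae : κ → Fin n → ℝ)
    (be : κ → ℝ) (Ai : ι → Fin n → ℝ) (bi : ι → ℝ) (c : Fin n → ℝ)
    (x0 : Fin n → ℝ) (h0e : ∀ k, ∑ j, Ae k j * x0 j = be k) (h0i : ∀ i, ∑ j, Ai i j * x0 j ≤ bi i)
    (M : ℝ) (hM : ∀ x : Fin n → ℝ, (∀ k, ∑ j, Ae k j * x j = be k) →
      (∀ i, ∑ j, Ai i j * x j ≤ bi i) → ∑ j, c j * x j ≤ M) :
    ∃ x : Fin n → ℝ, (∀ k, ∑ j, Ae k j * x j = be k) ∧ (∀ i, ∑ j, Ai i j * x j ≤ bi i) ∧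
      ∀ y : Fin n → ℝ, (∀ k, ∑ j, Ae k j * y j = be k) → (∀ i, ∑ j, Ai i j * y j ≤ bi i) →
        ∑ j, c j * y j ≤ ∑ j, c j * x j := by
  obtain ⟨x, lam, mu, h1, h2, h3, h4, h5⟩ := lp_duality Ae be Ai bi c x0 h0e h0i M hM
  refine ⟨x, h1, h2, fun y hy1 hy2 => ?_⟩
  rw [h5]
  have e1 : ∑ j, c j * y j = ∑ k, lam k * (∑ j, Ae k j * y j) +
      ∑ i, mu i * (∑ j, Ai i j * y j) := by
    simp only [← h4, add_mul, Finset.sum_add_distrib, Finset.sum_mul, Finset.mul_sum]
    congr 1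
    · rw [Finset.sum_comm]
      exact Finset.sum_congr rfl fun k _ => Finset.sum_congr rfl fun j _ => by ring
    · rw [Finset.sum_comm]
      exact Finset.sum_congr rfl fun k _ => Finset.sum_congr rfl fun j _ => by ring
  rw [e1]
  refine add_le_add (le_of_eq ?_) (Finset.sum_le_sum fun i _ =>
    mul_le_mul_of_nonneg_left (hy2 i) (h3 i))
  exact Finset.sum_congr rfl fun k _ => by rw [hy1]

/-- The exact oracle satisfies the specification. -/
theorem spec_orcR {N d : ℕ} (A : Fin N → Fin d → ℝ) (b : Fin N → ℝ) (c : Fin d → ℝ) :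
    Spec (orcR (sysR A b c) N) (fun a b : ℝ => open Classical in decide (a ≤ b))
      (sysR A b c) (id : (Fin d → ℝ) → (Fin d → ℝ)) := by
  classical
  set S := sysR A b c with hS
  refine ⟨fun p i _ => ?_, fun J i _ _ => ?_, fun p q => ?_, fun J I _ _ h => ?_,
    fun J I hJ hI h r => ?_, fun J I p hJ hI h => ?_⟩
  · simp [orcR]
  · simp [orcR]
  · simp [orcR]
  · by_contra hne
    by_cases h2 : ∃ p ∈ S.Q J I, ∀ y ∈ S.Q J I, S.c y ≤ S.c p
    · simp [orcR, hne, h2] at h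
    · simp [orcR, hne, h2] at h
  · by_contra hno
    push Not at hno
    have hne : S.Q J I ≠ ∅ := by
      intro he
      simp [orcR, he] at h
    have h2 : ¬ ∃ p ∈ S.Q J I, ∀ y ∈ S.Q J I, S.c y ≤ S.c p := by
      intro h2
      simp only [orcR, hne, if_false, h2, dif_pos] at h
      exact absurd h (by simp)
    apply h2
    obtain ⟨x0, hx0⟩ := Set.nonempty_iff_ne_empty.2 hne
    -- translate
    have hmem : ∀ x : Fin d → ℝ, x ∈ S.Q J I ↔
        (∀ k : {i // i ∈ J}, ∑ j, A ⟨k.1, hJ k.1 k.2⟩ j * x j = b ⟨k.1, hJ k.1 k.2⟩) ∧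
        (∀ k : {i // i ∈ I}, ∑ j, A ⟨k.1, hI k.1 k.2⟩ j * x j ≤ b ⟨k.1, hI k.1 k.2⟩) := by
      intro x
      constructor
      · rintro ⟨a1, a2⟩
        refine ⟨fun k => ?_, fun k => ?_⟩
        · have := a1 k.1 k.2
          rw [hS, sysR_sl A b c (hJ k.1 k.2)] at this
          linarith
        · have := a2 k.1 k.2
          rw [hS, sysR_sl A b c (hI k.1 k.2)] at this
          linarith
      · rintro ⟨a1, a2⟩
        refine ⟨fun i hi => ?_, fun i hi => ?_⟩
        · rw [hS, sysR_sl A b c (hJ i hi)]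
          have := a1 ⟨i, hi⟩
          simp only at this
          linarith
        · rw [hS, sysR_sl A b c (hI i hi)]
          have := a2 ⟨i, hi⟩
          simp only at this
          linarith
    have h3 := (hmem x0).1 hx0
    obtain ⟨x, b1, b2, b3⟩ := exists_max (κ := {i // i ∈ J}) (ι := {i // i ∈ I})
      (fun k => A ⟨k.1, hJ k.1 k.2⟩) (fun k => b ⟨k.1, hJ k.1 k.2⟩)
      (fun k => A ⟨k.1, hI k.1 k.2⟩) (fun k => b ⟨k.1, hI k.1 k.2⟩) c x0 h3.1 h3.2 r
      (fun x c1 c2 => hno x ((hmem x).2 ⟨c1, c2⟩))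
    exact ⟨x, (hmem x).2 ⟨b1, b2⟩, fun y hy => b3 y ((hmem y).1 hy).1 ((hmem y).1 hy).2⟩
  · have hne : S.Q J I ≠ ∅ := by
      intro he
      simp [orcR, he] at h
    by_cases h2 : ∃ p ∈ S.Q J I, ∀ y ∈ S.Q J I, S.c y ≤ S.c p
    · simp only [orcR, hne, if_false, h2, dif_pos] at h
      have h4 : h2.choose = p := by injection h
      rw [← h4]
      exact h2.choose_spec
    · simp only [orcR, hne, if_false, h2, dif_neg, not_false_eq_true] at h
      exact absurd h (by simp)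

section

variable {Pt Vl : Type} {o : Orc Pt Vl} {vle : Vl → Vl → Bool}
variable {E : Type*} [AddCommGroup E] [Module ℝ E] {S : Sys E} {val : Pt → E}

/-- the path as a sequence -/
theorem Ext.path {M : ℕ} {J : List ℕ} {m : ℕ} {π π' : List Pt} (h : Ext S M val J m π π')
    {x0 : Pt} (h0 : π = [x0]) {x : Pt} {ρ : List Pt} (h1 : π' = x :: ρ) :
    ∃ p : ℕ → E, p 0 = val x0 ∧ (∀ i < m, Mv S M J (p i) (p (i + 1))) ∧ p m = val x := by
  induction h generalizing x ρ with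
  | refl π =>
    subst h0
    obtain ⟨rfl, -⟩ := List.cons.inj h1
    exact ⟨fun _ => val x0, rfl, fun i hi => absurd hi (Nat.not_lt_zero _), rfl⟩
  | @step m π x' ρ' y h2 h3 ih =>
    obtain ⟨rfl, -⟩ := List.cons.inj h1
    obtain ⟨p, hp0, hp1, hp2⟩ := ih h0 rfl
    refine ⟨fun i => if i ≤ m then p i else val y, by simp [hp0], fun i hi => ?_, by simp⟩
    rcases Nat.lt_succ_iff_lt_or_eq.1 hi with h4 | rfl
    · simp only [h4.le, if_true, Nat.succ_le_of_lt h4]
      exact hp1 i h4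
    · simp only [le_refl, if_true, Nat.not_succ_le_self, if_false, hp2]
      exact h3

theorem Mv.estep {M : ℕ} {J : List ℕ} {x y : E} (h : Mv S M J x y) : EStep S M x y := by
  obtain ⟨K, z, t, h1, h2, h3, h4, h5, h6, h7, h8, h9, h10⟩ := h
  exact ⟨K, z, t, h2, h3, h4, h5, h6, h7, h8, h9, h10⟩

theorem Ry.rstep {M : ℕ} {J : List ℕ} {x : E} (h : Ry S M J x) : RStep S M J x := by
  obtain ⟨K, z, h1, h2, h3, h4, h5, h6, h7⟩ := h
  exact ⟨K, z, h2, h1, h3, h4, h5, h6, h7⟩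

/-- The bounds for the number of edges: `K` constraints, dimension `D`. -/
theorem Fc_bounds (D K : ℕ) (h : D = 0 ∨ 1 ≤ K) : Fc D (K + 1) ≤ 4 ^ (D - 2) * K ∧
    Fc D (K + 1) ≤ ∑ j ∈ Finset.range K.size, (2 * (D - 2) + K.size).choose j := by
  have hs : K + 1 ≤ 2 ^ K.size := Nat.lt_size_self K
  match D, h with
  | 0, _ => exact ⟨Nat.zero_le _, Nat.zero_le _⟩
  | 1, h =>
    have hK : 1 ≤ K := by omega
    refine ⟨?_, ?_⟩
    · show 1 ≤ 4 ^ (1 - 2) * K
      simpa using hK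
    · show 1 ≤ ∑ j ∈ Finset.range K.size, (2 * (1 - 2) + K.size).choose j
      have h1 : 0 < K.size := Nat.size_pos.2 hK
      calc 1 = (2 * (1 - 2) + K.size).choose 0 := by simp
        _ ≤ _ := Finset.single_le_sum (f := fun j => (2 * (1 - 2) + K.size).choose j)
          (fun _ _ => Nat.zero_le _) (Finset.mem_range.2 h1)
  | k + 2, _ =>
    refine ⟨?_, ?_⟩
    · have := Fc_linear k (K + 1)
      simpa using this
    · refine (Fc_mono hs).trans ?_
      rw [Fc_pow]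
      exact le_of_eq rfl

/-- A short monotone path to an optimum or to an improving ray. -/
theorem short_path [FiniteDimensional ℝ E] (ho : Spec o vle S val) {x : Pt}
    (hx : val x ∈ S.Q [] (List.range o.M)) (hv : S.Vx (fun i => i < o.M) (val x)) {d m : ℕ}
    (hd : Module.finrank ℝ E = d) (hm : o.M = m + d) :
    ∃ (k : ℕ) (p : ℕ → E), k ≤ Fc (min d (m + 1)) (min (m + d) (2 * m + 1) + 1) ∧
      p 0 = val x ∧ (∀ i < k, EStep S o.M (p i) (p (i + 1))) ∧
      ((p k ∈ S.Q [] (List.range o.M) ∧ ∀ y ∈ S.Q [] (List.range o.M), S.c y ≤ S.c (p k)) ∨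
        RStep S o.M [] (p k)) := by
  classical
  subst hd
  set J := rootK o vle x with hJdef
  set K := min (m + Module.finrank ℝ E) (2 * m + 1) with hKdef
  have hlt := target_lt (vle := vle) ho hx
  have hCM : ∀ j ∈ J, j < o.M := fun j hj => hlt j (List.mem_filter.1 hj).1
  have hJx : ∀ j ∈ J, S.sl j (val x) = 0 := fun j hj =>
    (ho.tt x j (hCM j hj)).1 (List.mem_filter.1 hj).2
  obtain ⟨hc1, hc2⟩ := root_counts (vle := vle) ho hx hv hm
  have hlen : (rootFrame o vle x).I.length ≤ K := by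
    refine le_min ?_ hc2
    rw [← hm]
    exact root_length_le x
  have hfin : Module.finrank ℝ (S.V J) ≤ min (Module.finrank ℝ E) (m + 1) :=
    le_min (root_finrank_le x) hc1
  -- the target
  obtain ⟨q, hq2, hqK, hqF⟩ : ∃ q, 2 ≤ q ∧ K + 1 ≤ q ∧
      Fc (min (Module.finrank ℝ E) (m + 1)) q ≤
        Fc (min (Module.finrank ℝ E) (m + 1)) (K + 1) := by
    rcases Nat.eq_zero_or_pos K with h0 | h0
    · have h1 : Module.finrank ℝ E = 0 := by omega
      refine ⟨2, le_rfl, by omega, ?_⟩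
      rw [h1, Nat.zero_min]
      exact le_rfl
    · exact ⟨K + 1, by omega, le_rfl, le_rfl⟩
  obtain ⟨out, n, -, -, hout⟩ := run_spec cst_Fc ho (min (Module.finrank ℝ E) (m + 1)) J q x []
    [] hfin hCM ⟨hJx, hx.2⟩ hv hq2
  match out, hout with
  | .inl (π', true), ⟨⟨k, he, hk⟩, x', ρ', hx', hry⟩ =>
    obtain ⟨p, hp0, hp1, hp2⟩ := he.path rfl hx'
    refine ⟨k, p, hk.trans hqF, hp0, fun i hi => (hp1 i hi).estep, Or.inr ?_⟩
    rw [hp2]
    exact (hry.mono (J := []) (fun j hj => absurd hj List.not_mem_nil)).rstep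
  | .inl (π', false), ⟨⟨k, he, hk⟩, x', ρ', hx', hopt⟩ =>
    obtain ⟨p, hp0, hp1, hp2⟩ := he.path rfl hx'
    obtain ⟨⟨v', w', heq, hvQ, hvV⟩, -⟩ := he.valid ⟨x, [], rfl, ⟨hJx, hx.2⟩, hv⟩
    rw [hx'] at heq
    obtain ⟨rfl, rfl⟩ := List.cons.inj heq
    refine ⟨k, p, hk.trans hqF, hp0, fun i hi => (hp1 i hi).estep, Or.inl ?_⟩
    rw [hp2]
    refine ⟨⟨fun j hj => absurd hj List.not_mem_nil, hvQ.2⟩, fun y hy => ?_⟩
    obtain ⟨z, hz, h1⟩ := root_full (vle := vle) ho hx y hy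
    exact h1.trans (hopt z hz)
  | .inr D, ⟨_, x', ρ', hx', hcard⟩ =>
    exfalso
    have hsub : MetS S o.M val J (S.c (val x')) D ⊆ (rootFrame o vle x).I.toFinset := by
      intro i hi
      obtain ⟨h1, h2, -⟩ := mem_MetS.1 hi
      rw [List.mem_toFinset]
      show i ∈ (List.range o.M).filter (fun i => !o.dep (rootK o vle x) i)
      rw [List.mem_filter, List.mem_range]
      refine ⟨h1, ?_⟩
      cases h3 : o.dep (rootK o vle x) i with
      | false => rfl
      | true => exact absurd ((ho.dep _ _ hCM h1).1 h3) h2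
    have h1 := (Finset.card_le_card hsub).trans (List.toFinset_card_le _)
    omega

end

end Pool.Agent.Simplex.Lar
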